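import Pool.Agent.helper83.ORE.SpecDE

/-!
# Project ore (MP_561ff4_al), row DCY
-/

set_option autoImplicit false

namespace Pool.Agent.ORE

open Module Pool.Agent.GS

theorem DCY_ne {n i j : ℕ} (hi : i < n) (hj : j < n) (hij : i ≠ j) :
    ((i : ℕ) : ZMod n) ≠ ((j : ℕ) : ZMod n) := by
  intro h
  rw [ZMod.natCast_eq_natCast_iff', Nat.mod_eq_of_lt hi, Nat.mod_eq_of_lt hj] at h
  exact hij h

theorem DCY_step {F V X : Type} [Field F] [AddCommGroup V] [Module F V]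
    (Q : QuadraticForm F V) (y : Equiv.Perm V) (n c : ℕ) (hn : 1 ≤ n) (ζ : ZMod n → X → V)
    (H : ∀ i i' : ZMod n, i ≠ i' → ∃ τ ∈ OmQ Q, Gq Q y c τ ∧ (∀ z, τ (ζ i z) = ζ i' z) ∧
      (∀ z, τ (ζ i' z) = ζ i z) ∧ ∀ l, l ≠ i → l ≠ i' → ∀ z, τ (ζ l z) = ζ l z) (k : ℕ) :
    k < n → ∃ P ∈ OmQ Q, Gq Q y (c * k) P ∧
      (∀ i : ℕ, i < k → ∀ z, P (ζ (i : ZMod n) z) = ζ ((i + 1 : ℕ) : ZMod n) z) ∧
      (∀ z, P (ζ (k : ZMod n) z) = ζ 0 z) ∧
      (∀ l : ℕ, k < l → l < n → ∀ z, P (ζ (l : ZMod n) z) = ζ (l : ZMod n) z) := by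
  induction k with
  | zero =>
    intro _
    refine ⟨1, (OmQ Q).one_mem, Gq.one _, ?_, ?_, ?_⟩
    · intro i hi
      exact absurd hi (Nat.not_lt_zero i)
    · intro z
      rw [Equiv.Perm.one_apply, Nat.cast_zero]
    · intro l _ _ z
      rfl
  | succ k ih =>
    intro hk
    obtain ⟨P, hP, hG, h1, h2, h3⟩ := ih (by omega)
    obtain ⟨τ, hτ, hτG, t1, t2, t3⟩ := H (k : ZMod n) ((k + 1 : ℕ) : ZMod n)
      (DCY_ne (by omega) hk (by omega))
    refine ⟨P * τ, (OmQ Q).mul_mem hP hτ, ?_, ?_, ?_, ?_⟩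
    · have := Gq.mul hG hτG (OmQ_le Q hP).1
      rw [Nat.mul_succ]
      exact this
    · intro i hi z
      rw [Equiv.Perm.mul_apply]
      rcases Nat.lt_succ_iff_lt_or_eq.1 hi with hi' | hi'
      · rw [t3 _ (DCY_ne (by omega) (by omega) (by omega)) (DCY_ne (by omega) hk (by omega)),
          h1 i hi']
      · subst hi'
        rw [t1, h3 (i + 1) (by omega) hk]
    · intro z
      rw [Equiv.Perm.mul_apply, t2, h2]
    · intro l hl hl' z
      rw [Equiv.Perm.mul_apply, t3 _ (DCY_ne hl' (by omega) (by omega))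
        (DCY_ne hl' hk (by omega)), h3 l (by omega) hl']

theorem DCY : DCY_stmt := by
  intro F V X _ _ _ Q y n c hn ζ H
  obtain ⟨P, hP, hG, h1, h2, _⟩ := DCY_step Q y n c hn ζ H (n - 1) (by omega)
  refine ⟨P, hP, hG, ?_⟩
  intro i z
  haveI : NeZero n := ⟨by omega⟩
  have hi : ((i.val : ℕ) : ZMod n) = i := ZMod.natCast_zmod_val i
  have hlt : i.val < n := ZMod.val_lt i
  by_cases h : i.val < n - 1
  · have h4 := h1 i.val h z
    rw [Nat.cast_succ, hi] at h4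
    exact h4
  · have h5 : i.val = n - 1 := by omega
    have h6 := h2 z
    rw [← h5, hi] at h6
    have h7 : i + 1 = 0 := by
      have h8 : ((i.val + 1 : ℕ) : ZMod n) = 0 := by
        rw [h5, Nat.sub_add_cancel hn, ZMod.natCast_self]
      rw [Nat.cast_succ, hi] at h8
      exact h8
    rw [h6, h7]

end Pool.Agent.ORE
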